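import Pool.Agent.Lib.TGA_h53.NewChart

/-!
# TANK G, row E5: assembly
-/

set_option autoImplicit false

open scoped BigOperators
open Polynomial

namespace Pool.Agent.TGh53

open Pool.Agent.LU2 (locV le_locV locV_mono locV_le locV_inv locV_mem locV_locV)
open Pool.Agent.TG (ncl tor le_ncl ncl_mono Ov ZDim IsMin IsModel Fin' NV RV NV_eq ch chN TChart
  ncl_mem ch_le exists_isMin HasAtlas NV_le valg bl)
open Pool.Agent.TG.CB (Prin isModel_prod)

universe u

variable {k K : Type u} [Field k] [Field K] [Algebra k K] {V : ValuationSubring K}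

section Reindex

variable {n : ℕ} {P : Submodule k K} {ι ι' : Type} [Fintype ι] [DecidableEq ι] [Fintype ι']
  [DecidableEq ι'] {Q : ι → Submodule k K} {a : ι → ℕ} {e : ℕ}

/-- Reindexing the classes. -/
theorem reindex_chart (σ : ι ≃ ι') (C : TChart n P Q a e) :
    ∃ C' : TChart n P (fun j => Q (σ.symm j)) (fun j => a (σ.symm j)) e, C'.F = C.F := by
  let ψ : (ι' → ℤ) →+ (ι → ℤ) :=
    { toFun := fun b j => b (σ j)
      map_zero' := rfl
      map_add' := fun _ _ => rfl }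
  have hψ : ∀ j, ψ (Pi.single j 1) = Pi.single (σ.symm j) 1 := by
    intro j
    funext i
    change (Pi.single j 1 : ι' → ℤ) (σ i) = (Pi.single (σ.symm j) 1 : ι → ℤ) i
    by_cases h : σ i = j
    · subst h
      rw [Equiv.symm_apply_apply, Pi.single_eq_same, Pi.single_eq_same]
    · rw [Pi.single_eq_of_ne h, Pi.single_eq_of_ne]
      rintro rfl
      exact h (Equiv.apply_symm_apply _ _)
  refine ⟨{ C with
    φ := C.φ.comp ψ
    tors := ?_
    cls := ?_ }, rfl⟩
  · intro m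
    obtain ⟨b, hb⟩ := C.tors m
    refine ⟨fun j => b (σ.symm j), ?_⟩
    rw [AddMonoidHom.comp_apply, ← hb]
    congr 1
    funext i
    change b (σ.symm (σ i)) = b i
    rw [Equiv.symm_apply_apply]
  · intro V hV hU j
    have h := C.cls V hV hU (σ.symm j)
    rw [AddMonoidHom.comp_apply, hψ]
    exact h

theorem reindex_atlas (σ : ι ≃ ι') (h : HasAtlas n P Q a e) :
    HasAtlas n P (fun j => Q (σ.symm j)) (fun j => a (σ.symm j)) e := by
  obtain ⟨m, C, hC⟩ := h
  choose C' hC' using fun i => reindex_chart σ (C i)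
  refine ⟨m, C', fun V hV => ?_⟩
  obtain ⟨i, hi⟩ := hC V hV
  exact ⟨i, by rw [hC']; exact hi⟩

/-- Atlases over any finite type. -/
theorem hasAtlas_of {κ : Type*} [Finite κ] (C : κ → TChart n P Q a e)
    (h : ∀ V : ValuationSubring K, ZDim k V → ∃ i, ∀ z ∈ (C i).F, z ∈ V) :
    HasAtlas n P Q a e := by
  obtain ⟨m, ⟨σ⟩⟩ := Finite.exists_equiv_fin κ
  refine ⟨m, fun i => C (σ.symm i), fun V hV => ?_⟩
  obtain ⟨i, hi⟩ := h V hV
  refine ⟨σ i, ?_⟩
  change ∀ z ∈ (C (σ.symm (σ i))).F, z ∈ V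
  rw [Equiv.symm_apply_apply]
  exact hi

end Reindex

section Asm

variable {n : ℕ} {P : Submodule k K} {ι : Type} [Fintype ι] [DecidableEq ι]
  {Q : ι → Submodule k K} {e : ℕ} {M : ℕ} {R : (ι → Fin e) → Submodule k K}

/-- Index `e` to index `1`, from the families of ideals. -/
theorem atlas_one (hP : IsModel P) (hF : Fin' P) (he : 0 < e) (hR : ∀ d, IsModel (R d))
    (hfam : ∀ C : TChart n P Q (fun _ => 0) e, FamAt C M R)
    (h : HasAtlas n P Q (fun _ => 0) e) :
    HasAtlas n (P * ∏ d, R d)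
      (Sum.elim Q fun d => R d * P ^ (1 + (Fintype.card (ι → Fin e) - 1) * M))
      (Sum.elim (fun _ => 0) fun _ => 1) 1 := by
  classical
  obtain ⟨m, C, hC⟩ := h
  choose G g1 g2 g3 using fun (i : Fin m) (d : ι → Fin e) =>
    exists_gen (C i).T_fg (chart_sat (C i)) he ((C i).φ (ex d))
  choose B hB using fun d => (hR d).fg
  let κ := Σ i : Fin m, ((d : ι → Fin e) → {x // x ∈ G i d}) ×
    ((d : ι → Fin e) → {q // q ∈ (B d).filter (fun q => q ≠ 0)})
  have hD : ∀ p : κ, Dat (C p.1) M R (G p.1) B (fun d => (p.2.1 d : _)) (fun d => (p.2.2 d : K)) := by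
    rintro ⟨i, x, q⟩
    exact ⟨hP, hF, hR, hfam _, g1 i, g2 i, g3 i, hB, fun d => (x d).2,
      fun d => (Finset.mem_filter.1 (q d).2).1, fun d => (Finset.mem_filter.1 (q d).2).2⟩
  choose C' hC' using fun p => exists_chart he (hD p)
  refine hasAtlas_of C' fun V hV => ?_
  obtain ⟨i, hi⟩ := hC V hV
  -- the choices
  have hq : ∀ d, ∃ q ∈ (B d).filter (fun q => q ≠ 0), IsMin V (R d) q := by
    intro d
    obtain ⟨q, hq, hqm⟩ := Pool.Agent.TG.exists_isMin_mem hV.ov (B d) (by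
      by_contra h
      push Not at h
      refine (hR d).ne ?_
      rw [← hB d, Submodule.span_eq_bot]
      exact h)
    rw [hB d] at hqm
    exact ⟨q, Finset.mem_filter.2 ⟨hq, hqm.ne⟩, hqm⟩
  have hx := (C i).x_ne
  have hm : ∀ d, ∃ x ∈ G i d, ∀ m ∈ G i d, Pool.Agent.TG.mon (C i).x (m - x) ∈ V := by
    intro d
    have hne : (G i d).Nonempty := by
      rw [Finset.nonempty_iff_ne_empty]
      intro hG
      obtain ⟨q, -, hq⟩ := hq d
      have h1 := (hfam (C i)).h1 V hV hi d q hq.mem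
      have h2 : {m | e • m - (C i).φ (ex d) ∈ (C i).T} = ∅ := by
        rw [Set.eq_empty_iff_forall_notMem]
        intro m hm
        obtain ⟨m', hm', -⟩ := g2 i d m hm
        rw [hG] at hm'
        exact absurd hm' (Finset.notMem_empty _)
      rw [h2, Set.image_empty, Submodule.span_empty, Submodule.mem_bot] at h1
      exact div_ne_zero hq.ne (pow_ne_zero _ ((C i).min V hV hi).ne) h1
    obtain ⟨x₀, hx₀⟩ := hne
    obtain ⟨f, hf, hfm⟩ := Pool.Agent.TG.exists_isMin_mem hV.ov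
      ((G i d).image (Pool.Agent.TG.mon (C i).x))
      ⟨_, Finset.mem_image_of_mem _ hx₀, Pool.Agent.TG.mon_ne_zero hx _⟩
    obtain ⟨x, hxG, rfl⟩ := Finset.mem_image.1 hf
    refine ⟨x, hxG, fun m hm => ?_⟩
    rw [Pool.Agent.TG.mon_sub hx]
    exact hfm.div _ (Submodule.subset_span (Finset.mem_coe.2 (Finset.mem_image_of_mem _ hm)))
  choose q hqB hqm using hq
  choose x hxG hxm using hm
  refine ⟨⟨i, fun d => ⟨x d, hxG d⟩, fun d => ⟨q d, hqB d⟩⟩, ?_⟩
  rw [hC']
  refine forall_newF.2 ⟨hi, hxm, fun d b hb => ?_⟩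
  refine (hqm d).div b ?_
  rw [← hB d]
  exact Submodule.subset_span hb

end Asm

/-- **Row E5**, from the families of ideals. -/
theorem rowE5_of {k : Type u} [Field k] {n : ℕ}
    {K : Type u} [Field K] [Algebra k K] {P : Submodule k K} (hP : IsModel P) (hF : Fin' P) {N : ℕ}
    {Q : Fin N → Submodule k K} (hQ : ∀ j, IsModel (Q j)) {e : ℕ} (he : 0 < e)
    (hfam : ∃ (M : ℕ) (R : (Fin N → Fin e) → Submodule k K), (∀ d, IsModel (R d)) ∧
      ∀ C : TChart n P Q (fun _ => 0) e, FamAt C M R)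
    (h : HasAtlas n P Q (fun _ => 0) e) :
    ∃ (P' : Submodule k K) (N' : ℕ) (Q' : Fin N' → Submodule k K) (a' : Fin N' → ℕ),
      IsModel P' ∧ Fin' P' ∧ (∀ j, IsModel (Q' j)) ∧ (∀ j, ∃ j', Q' j' = Q j ∧ a' j' = 0) ∧
        HasAtlas n P' Q' a' 1 := by
  classical
  obtain ⟨M, R, hR, hf⟩ := hfam
  have h1 := atlas_one hP hF he hR hf h
  have hE : IsModel (∏ d, R d) := isModel_prod _ fun d _ => hR d
  let σ := Fintype.equivFin (Fin N ⊕ (Fin N → Fin e))
  refine ⟨P * ∏ d, R d, _, _, _, hP.mul hE, fin_mul hF hE, ?_, ?_, reindex_atlas σ h1⟩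
  · intro j
    rcases σ.symm j with j | d
    · exact hQ j
    · exact (hR d).mul (hP.pow _)
  · intro j
    refine ⟨σ (Sum.inl j), ?_, ?_⟩
    · simp only [Equiv.symm_apply_apply, Sum.elim_inl]
    · simp only [Equiv.symm_apply_apply, Sum.elim_inl]

end Pool.Agent.TGh53
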