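import Pool.Agent.Lib.TGA_h53.DM
import Pool.Agent.Lib.TG.A5

/-!
# TANK G, row E5: fractions, roots of monomials in a chart
-/

set_option autoImplicit false

open scoped BigOperators
open Polynomial

namespace Pool.Agent.TGh53

open Pool.Agent.LU2 (locV le_locV locV_mono locV_le locV_inv locV_mem locV_locV)
open Pool.Agent.TG (ncl tor le_ncl ncl_mono Ov ZDim IsMin IsModel Fin' NV NV_eq ch chN TChart
  ncl_mem ch_le exists_isMin HasAtlas NV_le)

universe u

variable {k K : Type u} [Field k] [Field K] [Algebra k K] {V : ValuationSubring K}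
  {P : Submodule k K}

theorem frac_mono {A B : Subalgebra k K} (h : A ≤ B) {z : K} (hz : z ∈ frac A) : z ∈ frac B := by
  obtain ⟨b, hb, c, hc, hc0, rfl⟩ := hz
  exact ⟨b, h hb, c, h hc, hc0, rfl⟩

theorem frac_div {A : Subalgebra k K} {y z : K} (hy : y ∈ frac A) (hz : z ∈ frac A) :
    y / z ∈ frac A := by
  obtain ⟨b, hb, c, hc, hc0, rfl⟩ := hy
  obtain ⟨b', hb', c', hc', hc0', rfl⟩ := hz
  by_cases h : b' = 0
  · exact ⟨0, A.zero_mem, 1, A.one_mem, one_ne_zero, by rw [h]; simp⟩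
  · exact ⟨b * c', A.mul_mem hb hc', c * b', A.mul_mem hc hb', mul_ne_zero hc0 h, by
      rw [div_div_div_eq]⟩

theorem le_frac {A : Subalgebra k K} {a : K} (ha : a ∈ A) : a ∈ frac A :=
  ⟨a, ha, 1, A.one_mem, one_ne_zero, by rw [div_one]⟩

theorem frac_locV {A : Subalgebra k K} {z : K} (hz : z ∈ frac (locV V A)) : z ∈ frac A := by
  obtain ⟨b, hb, c, hc, -, rfl⟩ := hz
  have h1 : ∀ y ∈ locV V A, y ∈ frac A := by
    rintro _ ⟨a, ha, b, hb, hvb, rfl⟩
    refine ⟨a, ha, b, hb, ?_, rfl⟩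
    rintro rfl
    rw [map_zero] at hvb
    exact zero_ne_one hvb
  exact frac_div (h1 b hb) (h1 c hc)

/-- `K` is the field of fractions of `NV V P`. -/
theorem frac_NV (hV : Ov k V) (hP : IsModel P) (hF : Fin' P) (z : K) : z ∈ frac (NV V P) := by
  obtain ⟨f, hf⟩ := exists_isMin hV hP
  have h1 : IsAlgebraic (ch P f) z := hF.isAlgebraic hf.ne z
  obtain ⟨y, hy, hz⟩ := h1.exists_integral_multiple
  have hy0 : (y : K) ≠ 0 := fun h => hy (Subtype.ext h)
  have h2 : (y : K) * z ∈ NV V P := by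
    rw [NV_eq hf]
    exact le_locV _ (show IsIntegral (ch P f) ((y : K) * z) from hz)
  have h3 : (y : K) ∈ NV V P := by
    rw [NV_eq hf]
    exact le_locV _ (le_ncl _ y.2)
  exact ⟨(y : K) * z, h2, y, h3, hy0, by field_simp⟩

/-- The union is `adj`. -/
theorem adjoin_eq_adj (A : Subalgebra k K) (θ : K) :
    Algebra.adjoin k ((A : Set K) ∪ {θ}) = adj A θ := rfl

section Chart

variable {n : ℕ} {ι : Type} [Fintype ι] [DecidableEq ι] {Q : ι → Submodule k K} {a : ι → ℕ}
  {e : ℕ} (C : TChart n P Q a e)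

theorem chart_sat : Sat C.T := fun m N hN hm => C.T_sat N m hN hm

include C in
theorem chart_frac (hP : IsModel P) (hF : Fin' P) (hV : ZDim k V) (hU : ∀ z ∈ C.F, z ∈ V) (z : K) :
    z ∈ frac (adj (tor k C.x C.y C.T) C.θ) := by
  have h1 := frac_NV hV.ov hP hF z
  rw [C.ring V hV hU] at h1
  exact frac_locV h1

include C in
theorem chart_tor_le (hP : IsModel P) (hV : ZDim k V) (hU : ∀ z ∈ C.F, z ∈ V) :
    ∀ z ∈ adj (tor k C.x C.y C.T) C.θ, z ∈ V := by
  intro z hz
  have h1 : z ∈ NV V P := by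
    rw [C.ring V hV hU]
    exact le_locV _ hz
  exact NV_le hV.ov hP z h1

/-- **DM**: roots of monomials in a chart. -/
theorem dm_chart (hP : IsModel P) (hF : Fin' P) (hV : ZDim k V) (hU : ∀ z ∈ C.F, z ∈ V) {e' : ℕ}
    (he : 0 < e') {c : Fin C.r → ℤ} (hc : ∃ b ∈ C.T, ∃ b' ∈ C.T, c = b - b') {z : K}
    (hz : z ^ e' / Pool.Agent.TG.mon C.x c ∈ NV V P) :
    z ∈ Submodule.span (NV V P) (Pool.Agent.TG.mon C.x '' {m | e' • m - c ∈ C.T}) := by
  have hAV : ∀ z ∈ tor k C.x C.y C.T, z ∈ V := fun z hz =>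
    chart_tor_le C hP hV hU z (le_adj _ _ hz)
  have hN := nrm_tor C.ind C.T_fg (chart_sat C)
  have hfr := chart_frac C hP hF hV hU
  have hE := etale_ncl hAV hN C.monic C.coeff C.root (C.der V hV hU) hfr
  have hR : NV V P = locV V (adj (tor k C.x C.y C.T) C.θ) := C.ring V hV hU
  have hmf : Pool.Agent.TG.mon C.x c ∈ frac (tor k C.x C.y C.T) := by
    obtain ⟨b, hb, b', hb', rfl⟩ := hc
    rw [Pool.Agent.TG.mon_sub C.x_ne]
    exact ⟨_, Algebra.subset_adjoin (Or.inl ⟨b, hb, rfl⟩), _,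
      Algebra.subset_adjoin (Or.inl ⟨b', hb', rfl⟩), Pool.Agent.TG.mon_ne_zero C.x_ne _, rfl⟩
  have h1 := etale_root hAV hN C.monic C.coeff C.root (C.der V hV hU) hfr he hmf (x := z)
    (by rw [hE, ← hR]; exact hz)
  rw [← hR] at h1
  have h2 : ∀ w ∈ Submodule.span (NV V P) {w | w ∈ frac (tor k C.x C.y C.T) ∧
      w ^ e' / Pool.Agent.TG.mon C.x c ∈ tor k C.x C.y C.T},
      w ∈ Submodule.span (NV V P) (Pool.Agent.TG.mon C.x '' {m | e' • m - c ∈ C.T}) := by
    intro w hw
    induction hw using Submodule.span_induction with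
    | mem w hw =>
      have h3 := tor_root C.ind C.T_fg (chart_sat C) he hw.1 (le_ncl _ hw.2)
      have h4 : ∀ u ∈ Submodule.span (tor k C.x C.y C.T)
          (Pool.Agent.TG.mon C.x '' {m | e' • m - c ∈ C.T}),
          u ∈ Submodule.span (NV V P) (Pool.Agent.TG.mon C.x '' {m | e' • m - c ∈ C.T}) := by
        intro u hu
        induction hu using Submodule.span_induction with
        | mem u hu => exact Submodule.subset_span hu
        | zero => exact Submodule.zero_mem _
        | add p q _ _ hp hq => exact Submodule.add_mem _ hp hq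
        | smul p q _ hq =>
          have h5 : (p : K) ∈ NV V P := by
            rw [hR]
            exact le_locV _ (le_adj _ _ p.2)
          exact Submodule.smul_mem _ (⟨(p : K), h5⟩ : NV V P) hq
      exact h4 w h3
    | zero => exact Submodule.zero_mem _
    | add p q _ _ hp hq => exact Submodule.add_mem _ hp hq
    | smul p q _ hq => exact Submodule.smul_mem _ p hq
  exact h2 z h1

end Chart

end Pool.Agent.TGh53
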