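import Pool.Agent.Lib.TGA_h75.Atlas
import Pool.Agent.Lib.TG_h53.Toric

/-!
# TANK G, row E5: the toric ring of a chart is normal; roots of monomials
-/

set_option autoImplicit false

open scoped BigOperators
open Polynomial

namespace Pool.Agent.TGh53

open Pool.Agent.LU2 (locV le_locV locV_mono locV_le locV_inv locV_mem locV_locV)
open Pool.Agent.TG (ncl tor le_ncl ncl_mono)

universe u

variable {k K : Type u} [Field k] [Field K] [Algebra k K] {r D : ℕ}

theorem mon_eq {x : Fin r → K} (m : Fin r → ℤ) : Pool.Agent.TG.mon x m = mon x m := rfl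

/-- `T × ℕ^D`. -/
def TD (D : ℕ) (T : AddSubmonoid (Fin r → ℤ)) : AddSubmonoid (Fin r ⊕ Fin D → ℤ) where
  carrier := {m | (fun i => m (Sum.inl i)) ∈ T ∧ ∀ j, 0 ≤ m (Sum.inr j)}
  zero_mem' := ⟨T.zero_mem, fun _ => le_rfl⟩
  add_mem' := fun ha hb => ⟨T.add_mem ha.1 hb.1, fun j => add_nonneg (ha.2 j) (hb.2 j)⟩

theorem mem_TD {T : AddSubmonoid (Fin r → ℤ)} {m : Fin r ⊕ Fin D → ℤ} :
    m ∈ TD D T ↔ (fun i => m (Sum.inl i)) ∈ T ∧ ∀ j, 0 ≤ m (Sum.inr j) := Iff.rfl

/-- Extension by `0`. -/
def exl (D : ℕ) (m : Fin r → ℤ) : Fin r ⊕ Fin D → ℤ := Sum.elim m 0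

theorem sat_TD {T : AddSubmonoid (Fin r → ℤ)} (hs : Sat T) : Sat (TD D T) := by
  intro m n hn hm
  refine ⟨hs _ n hn hm.1, fun j => ?_⟩
  have h1 := hm.2 j
  rw [Pi.smul_apply, nsmul_eq_mul] at h1
  have h2 : (0 : ℤ) < n := by exact_mod_cast hn
  exact nonneg_of_mul_nonneg_right h1 h2

theorem fg_TD {T : AddSubmonoid (Fin r → ℤ)} (hT : T.FG) : (TD D T).FG := by
  classical
  obtain ⟨S, hS⟩ := hT
  refine ⟨S.image (exl D) ∪ Finset.univ.image (fun j : Fin D => Pi.single (Sum.inr j) 1), ?_⟩
  apply le_antisymm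
  · rw [AddSubmonoid.closure_le]
    intro m hm
    rw [Finset.coe_union, Finset.coe_image, Finset.coe_image] at hm
    rcases hm with ⟨s, hs, rfl⟩ | ⟨j, -, rfl⟩
    · refine ⟨?_, fun j => le_rfl⟩
      rw [← hS]
      exact AddSubmonoid.subset_closure hs
    · refine ⟨?_, fun i => ?_⟩
      · have : (fun i => (Pi.single (Sum.inr j) 1 : Fin r ⊕ Fin D → ℤ) (Sum.inl i)) = 0 := by
          funext i
          rw [Pi.single_eq_of_ne (by simp)]
          rfl
        rw [this]
        exact T.zero_mem
      · change 0 ≤ (Pi.single (Sum.inr j) 1 : Fin r ⊕ Fin D → ℤ) (Sum.inr i)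
        by_cases h : i = j
        · subst h
          rw [Pi.single_eq_same]
          exact zero_le_one
        · rw [Pi.single_eq_of_ne (by simpa using h)]
  · intro m hm
    obtain ⟨h1, h2⟩ := hm
    have h3 : m = exl D (fun i => m (Sum.inl i)) +
        ∑ j : Fin D, (m (Sum.inr j)).toNat • (Pi.single (Sum.inr j) 1 : Fin r ⊕ Fin D → ℤ) := by
      funext i
      rw [Pi.add_apply, Finset.sum_apply]
      rcases i with i | i
      · rw [Finset.sum_eq_zero]
        · simp [exl]
        · intro j _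
          rw [Pi.smul_apply, Pi.single_eq_of_ne (by simp), smul_zero]
      · rw [Finset.sum_eq_single i]
        · rw [Pi.smul_apply, Pi.single_eq_same, nsmul_eq_mul, mul_one,
            Int.toNat_of_nonneg (h2 i)]
          simp [exl]
        · intro j _ hj
          rw [Pi.smul_apply, Pi.single_eq_of_ne (by simpa using (Ne.symm hj)), smul_zero]
        · exact fun h => absurd (Finset.mem_univ i) h
    rw [h3]
    refine AddSubmonoid.add_mem _ ?_ (AddSubmonoid.sum_mem _ fun j _ => ?_)
    · have h4 : ∀ t ∈ T, exl D t ∈ AddSubmonoid.closure ((S.image (exl D) ∪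
          Finset.univ.image (fun j : Fin D => Pi.single (Sum.inr j) 1) :
            Finset (Fin r ⊕ Fin D → ℤ)) : Set (Fin r ⊕ Fin D → ℤ)) := by
        intro t ht
        rw [← hS] at ht
        induction ht using AddSubmonoid.closure_induction with
        | mem t ht =>
          refine AddSubmonoid.subset_closure ?_
          rw [Finset.coe_union, Finset.coe_image]
          exact Or.inl ⟨t, ht, rfl⟩
        | zero =>
          have : exl D (0 : Fin r → ℤ) = 0 := by
            funext i
            rcases i with i | i <;> rfl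
          rw [this]
          exact AddSubmonoid.zero_mem _
        | add a b _ _ ha hb =>
          have : exl D (a + b) = exl D a + exl D b := by
            funext i
            rcases i with i | i
            · rfl
            · exact (add_zero (0 : ℤ)).symm
          rw [this]
          exact AddSubmonoid.add_mem _ ha hb
      exact h4 _ h1
    · refine AddSubmonoid.nsmul_mem _ (AddSubmonoid.subset_closure ?_) _
      rw [Finset.coe_union, Finset.coe_image, Finset.coe_image]
      exact Or.inr ⟨j, Finset.mem_coe.2 (Finset.mem_univ j), rfl⟩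

theorem mon_elim (x : Fin r → K) (y : Fin D → K) (m : Fin r ⊕ Fin D → ℤ) :
    mon (Sum.elim x y) m = mon x (fun i => m (Sum.inl i)) * ∏ j, y j ^ m (Sum.inr j) := by
  rw [mon, Fintype.prod_sum_type]
  rfl

theorem tor_eq (x : Fin r → K) (y : Fin D → K) (hx : ∀ i, x i ≠ 0) (hy : ∀ j, y j ≠ 0)
    (T : AddSubmonoid (Fin r → ℤ)) : tor k x y T = TA k (Sum.elim x y) (TD D T) := by
  have hxy : ∀ i, Sum.elim x y i ≠ 0 := by
    rintro (i | i)
    · exact hx i
    · exact hy i
  apply le_antisymm
  · refine Algebra.adjoin_le ?_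
    rintro z (⟨m, hm, rfl⟩ | ⟨j, rfl⟩)
    · have h1 : Pool.Agent.TG.mon x m = mon (Sum.elim x y) (exl D m) := by
        rw [mon_elim]
        simp [exl, mon_eq]
      rw [h1]
      exact mon_mem_TA _ ⟨hm, fun _ => le_rfl⟩
    · have h1 : y j = mon (Sum.elim x y) (Pi.single (Sum.inr j) 1) := by
        classical
        rw [mon, Finset.prod_eq_single (Sum.inr j)]
        · simp
        · intro i _ hi
          rw [Pi.single_eq_of_ne hi, zpow_zero]
        · exact fun h => absurd (Finset.mem_univ _) h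
      rw [h1]
      refine mon_mem_TA _ ⟨?_, fun i => ?_⟩
      · have : (fun i => (Pi.single (Sum.inr j) 1 : Fin r ⊕ Fin D → ℤ) (Sum.inl i)) = 0 := by
          funext i
          rw [Pi.single_eq_of_ne (by simp)]
          rfl
        rw [this]
        exact T.zero_mem
      · by_cases h : i = j
        · subst h
          rw [Pi.single_eq_same]
          exact zero_le_one
        · rw [Pi.single_eq_of_ne (by simpa using h)]
  · refine Algebra.adjoin_le ?_
    rintro _ ⟨m, ⟨hm1, hm2⟩, rfl⟩
    rw [mon_elim]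
    refine Subalgebra.mul_mem _ (Algebra.subset_adjoin (Or.inl ⟨_, hm1, rfl⟩)) ?_
    refine Subalgebra.prod_mem _ fun j _ => ?_
    obtain ⟨n, hn⟩ := Int.eq_ofNat_of_zero_le (hm2 j)
    rw [hn, zpow_natCast]
    exact Subalgebra.pow_mem _ (Algebra.subset_adjoin (Set.mem_union_right _ (Set.mem_range_self j))) n

section Ind

variable {x : Fin r → K} {y : Fin D → K} (ind : AlgebraicIndependent k (Sum.elim x y))

include ind

theorem ind_x (i : Fin r) : x i ≠ 0 := ne_zero_of_indep ind (Sum.inl i)

theorem ind_y (j : Fin D) : y j ≠ 0 := ne_zero_of_indep ind (Sum.inr j)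

theorem frac_tor {T : AddSubmonoid (Fin r → ℤ)} {z : K} (hz : z ∈ frac (tor k x y T)) :
    z ∈ frac (Algebra.adjoin k (Set.range (Sum.elim x y))) := by
  have hxy := ne_zero_of_indep ind
  obtain ⟨b, hb, c, hc, hc0, rfl⟩ := hz
  rw [tor_eq x y (ind_x ind) (ind_y ind)] at hb hc
  obtain ⟨J₁, h₁⟩ := exists_clear hxy hb
  obtain ⟨J₂, h₂⟩ := exists_clear hxy hc
  set J := max J₁ J₂
  have hX0 : mon (Sum.elim x y) (fun _ => (J : ℤ)) ≠ 0 := mon_ne_zero hxy _
  exact ⟨_, h₁ J (le_max_left _ _), _, h₂ J (le_max_right _ _), mul_ne_zero hX0 hc0, by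
    rw [mul_div_mul_left _ _ hX0]⟩

/-- Roots of monomials over the toric ring. -/
theorem tor_root {T : AddSubmonoid (Fin r → ℤ)} (hT : T.FG) (hs : Sat T) {e : ℕ} (he : 0 < e)
    {c : Fin r → ℤ} {z : K} (hz : z ∈ frac (tor k x y T))
    (h : z ^ e / Pool.Agent.TG.mon x c ∈ ncl (tor k x y T)) :
    z ∈ Submodule.span (tor k x y T) (Pool.Agent.TG.mon x '' {m | e • m - c ∈ T}) := by
  have h1 : Pool.Agent.TG.mon x c = mon (Sum.elim x y) (exl D c) := by
    rw [mon_elim]
    simp [exl, mon_eq]
  have h2 := toric_root ind (fg_TD (D := D) hT) (sat_TD hs) he (d := exl D c) (frac_tor ind hz)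
    (by rw [← h1, ← tor_eq x y (ind_x ind) (ind_y ind)]; exact h)
  have h3 : ∀ w ∈ Submodule.span k (mon (Sum.elim x y) '' {m | e • m - exl D c ∈ TD D T}),
      w ∈ Submodule.span (tor k x y T) (Pool.Agent.TG.mon x '' {m | e • m - c ∈ T}) := by
    intro w hw
    induction hw using Submodule.span_induction with
    | mem w hw =>
      obtain ⟨m, ⟨hm1, hm2⟩, rfl⟩ := hw
      rw [mon_elim, mul_comm]
      have h4 : ∏ j, y j ^ m (Sum.inr j) ∈ tor k x y T := by
        refine Subalgebra.prod_mem _ fun j _ => ?_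
        have h5 : 0 ≤ m (Sum.inr j) := by
          have h6 := hm2 j
          rw [Pi.sub_apply, Pi.smul_apply, nsmul_eq_mul] at h6
          have h7 : exl D c (Sum.inr j) = 0 := rfl
          rw [h7, sub_zero] at h6
          have h8 : (0 : ℤ) < e := by exact_mod_cast he
          exact nonneg_of_mul_nonneg_right h6 h8
        obtain ⟨n, hn⟩ := Int.eq_ofNat_of_zero_le h5
        rw [hn, zpow_natCast]
        exact Subalgebra.pow_mem _ (Algebra.subset_adjoin (Set.mem_union_right _ (Set.mem_range_self j))) n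
      exact Submodule.smul_mem _ (⟨_, h4⟩ : tor k x y T) (Submodule.subset_span ⟨_, hm1, rfl⟩)
    | zero => exact Submodule.zero_mem _
    | add a b _ _ ha hb => exact Submodule.add_mem _ ha hb
    | smul c w _ hw =>
      rw [← algebraMap_smul (tor k x y T) c w]
      exact Submodule.smul_mem _ _ hw
  exact h3 z h2

/-- The toric ring of a saturated monoid is normal. -/
theorem nrm_tor {T : AddSubmonoid (Fin r → ℤ)} (hT : T.FG) (hs : Sat T) :
    Nrm (tor k x y T) := by
  intro z hz hf
  have h1 := tor_root ind hT hs (e := 1) one_pos (c := 0) hf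
    (by rw [pow_one, Pool.Agent.TG.mon_zero, div_one]; exact hz)
  have h2 : ∀ w ∈ Submodule.span (tor k x y T) (Pool.Agent.TG.mon x '' {m | 1 • m - 0 ∈ T}),
      w ∈ tor k x y T := by
    intro w hw
    induction hw using Submodule.span_induction with
    | mem w hw =>
      obtain ⟨m, hm, rfl⟩ := hw
      have hm' : 1 • m - 0 ∈ T := hm
      rw [one_smul, sub_zero] at hm'
      exact Algebra.subset_adjoin (Or.inl ⟨m, hm', rfl⟩)
    | zero => exact Subalgebra.zero_mem _
    | add a b _ _ ha hb => exact Subalgebra.add_mem _ ha hb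
    | smul c w _ hw => exact Subalgebra.mul_mem _ c.2 hw
  exact h2 z h1

end Ind

end Pool.Agent.TGh53
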