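import Pool.Agent.Lib.TGA_h53.Chart

/-!
# TANK G, row E5: the monoid of a chart generates `ℤ ^ r`
-/

set_option autoImplicit false

open scoped BigOperators
open Polynomial

namespace Pool.Agent.TGh53

open Pool.Agent.LU2 (locV le_locV locV_mono locV_le locV_inv locV_mem locV_locV)
open Pool.Agent.TG (ncl tor le_ncl ncl_mono Ov ZDim IsMin IsModel Fin' NV NV_eq ch chN TChart
  ncl_mem ch_le exists_isMin HasAtlas NV_le)

universe u

variable {k K : Type u} [Field k] [Field K] [Algebra k K]

/-- Laurent monomials are linearly independent. -/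
theorem linearIndependent_mon {ι : Type} [Fintype ι] {x : ι → K} (hx : AlgebraicIndependent k x) :
    LinearIndependent k (fun m : ι → ℤ => mon x m) := by
  classical
  have hx0 := ne_zero_of_indep hx
  rw [linearIndependent_iff']
  intro s g hg m₀ hm₀
  obtain ⟨J, hJ⟩ : ∃ J : ℕ, ∀ m ∈ s, ∀ i, 0 ≤ m i + J := by
    refine ⟨∑ m ∈ s, ∑ i, (m i).natAbs, fun m hm i => ?_⟩
    have h1 : (m i).natAbs ≤ ∑ i, (m i).natAbs :=
      Finset.single_le_sum (f := fun i => (m i).natAbs) (fun _ _ => Nat.zero_le _) (Finset.mem_univ i)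
    have h2 : ∑ i, (m i).natAbs ≤ ∑ m ∈ s, ∑ i, (m i).natAbs :=
      Finset.single_le_sum (f := fun m : ι → ℤ => ∑ i, (m i).natAbs) (fun _ _ => Nat.zero_le _) hm
    omega
  let N : (ι → ℤ) → (ι →₀ ℕ) := fun m => Finsupp.equivFunOnFinite.symm fun i => (m i + J).toNat
  have hN : ∀ m ∈ s, ∀ m' ∈ s, N m = N m' → m = m' := by
    intro m hm m' hm' h
    funext i
    have h1 : (m i + J).toNat = (m' i + J).toNat := DFunLike.congr_fun h i
    have h2 := hJ m hm i
    have h3 := hJ m' hm' i
    omega
  have h1 : MvPolynomial.aeval x (∑ m ∈ s, MvPolynomial.monomial (N m) (g m)) = 0 := by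
    rw [map_sum]
    have h2 : ∀ m ∈ s, MvPolynomial.aeval x (MvPolynomial.monomial (N m) (g m))
        = mon x (fun _ => (J : ℤ)) * (g m • mon x m) := by
      intro m hm
      rw [MvPolynomial.aeval_monomial, Finsupp.prod_fintype _ _ (fun i => pow_zero _),
        Algebra.smul_def, mul_left_comm, ← mon_add hx0]
      congr 1
      rw [mon]
      refine Finset.prod_congr rfl fun i _ => ?_
      rw [← zpow_natCast]
      congr 1
      change (((m i + J).toNat : ℕ) : ℤ) = J + m i
      rw [Int.toNat_of_nonneg (hJ m hm i), add_comm]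
    rw [Finset.sum_congr rfl h2, ← Finset.mul_sum, hg, mul_zero]
  have h2 := (algebraicIndependent_iff_injective_aeval.1 hx) (h1.trans (map_zero _).symm)
  have h3 := congrArg (MvPolynomial.coeff (N m₀)) h2
  rw [MvPolynomial.coeff_sum, Finset.sum_eq_single m₀, MvPolynomial.coeff_monomial, if_pos rfl,
    MvPolynomial.coeff_zero] at h3
  · exact h3
  · intro m hm hne
    rw [MvPolynomial.coeff_monomial, if_neg]
    exact fun h => hne (hN m hm m₀ hm₀ h)
  · exact fun h => absurd hm₀ h

/-- A monomial algebraic over the toric ring. -/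
theorem exists_of_algebraic {ι : Type} [Fintype ι] {x : ι → K} (hx : AlgebraicIndependent k x)
    {T : AddSubmonoid (ι → ℤ)} {c : ι → ℤ} (h : IsAlgebraic (TA k x T) (mon x c)) :
    ∃ N : ℕ, 0 < N ∧ ∃ b ∈ T, ∃ b' ∈ T, N • c = b - b' := by
  classical
  have hx0 := ne_zero_of_indep hx
  let v : ℕ × T → (ι → ℤ) := fun p => p.2 + p.1 • c
  by_cases hv : Function.Injective v
  · exfalso
    have hli : LinearIndependent k (fun p : ℕ × T => mon x (v p)) :=
      (linearIndependent_mon hx).comp v hv
    obtain ⟨p, hp0, hp⟩ := h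
    have hc : ∀ i, ∃ a : T →₀ k, (p.coeff i : K) = a.sum fun t r => r • mon x (t : ι → ℤ) := by
      intro i
      have h1 := (mem_TA_iff hx0).1 (p.coeff i).2
      have h2 : (mon x '' (T : Set (ι → ℤ))) = Set.range (fun t : T => mon x (t : ι → ℤ)) := by
        rw [Set.image_eq_range]
        rfl
      rw [h2, Finsupp.mem_span_range_iff_exists_finsupp] at h1
      obtain ⟨a, ha⟩ := h1
      exact ⟨a, ha.symm⟩
    choose a ha using hc
    have h0 : ∑ i ∈ p.support, (a i).sum (fun t r => r • mon x (v (i, t))) = 0 := by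
      rw [Polynomial.aeval_eq_sum_range' (n := p.natDegree + 1) (by omega)] at hp
      have h1 : ∀ i, p.coeff i • mon x c ^ i = (a i).sum (fun t r => r • mon x (v (i, t))) := by
        intro i
        rw [Algebra.smul_def]
        change (p.coeff i : K) * _ = _
        rw [ha i, Finsupp.sum, Finset.sum_mul]
        refine Finset.sum_congr rfl fun t _ => ?_
        rw [smul_mul_assoc]
        change _ = _ • mon x ((t : ι → ℤ) + i • c)
        rw [mon_add hx0, mon_nsmul]
      rw [Finset.sum_congr rfl (fun i _ => h1 i)] at hp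
      rw [← hp]
      refine Finset.sum_subset ?_ ?_
      · intro i hi
        rw [Finset.mem_range]
        have := Polynomial.le_natDegree_of_mem_supp i hi
        omega
      · intro i _ hi
        rw [Polynomial.notMem_support_iff] at hi
        rw [← h1 i, hi, zero_smul]
    -- the finsupp
    let w : (ℕ × T) →₀ k := ∑ i ∈ p.support, (a i).mapDomain (fun t => (i, t))
    have hw : Finsupp.linearCombination k (fun p : ℕ × T => mon x (v p)) w = 0 := by
      rw [map_sum, ← h0]
      refine Finset.sum_congr rfl fun i _ => ?_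
      rw [Finsupp.linearCombination_mapDomain, Finsupp.linearCombination_apply]
      rfl
    have hw0 : w = 0 := by
      have h1 := linearIndependent_iff.1 hli w hw
      exact h1
    refine hp0 (Polynomial.ext fun i => ?_)
    rw [Polynomial.coeff_zero]
    by_contra hi
    have hi' : i ∈ p.support := Polynomial.mem_support_iff.2 hi
    have hai : a i = 0 := by
      ext t
      have h1 := DFunLike.congr_fun hw0 (i, t)
      rw [Finsupp.finsetSum_apply, Finset.sum_eq_single i] at h1
      · rw [Finsupp.mapDomain_apply (fun t t' h => (Prod.ext_iff.1 h).2)] at h1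
        exact h1
      · intro j _ hj
        rw [Finsupp.mapDomain_of_notMem_range]
        rintro ⟨t', ht'⟩
        exact hj (Prod.ext_iff.1 ht').1
      · exact fun h => absurd hi' h
    apply hi
    apply Subtype.ext
    rw [ha i, hai, Finsupp.sum_zero_index]
    rfl
  · obtain ⟨⟨i, t⟩, ⟨j, t'⟩, h1, h2⟩ : ∃ p q : ℕ × T, v p = v q ∧ p ≠ q := by
      rw [Function.Injective] at hv
      push Not at hv
      exact hv
    have h3 : (t : ι → ℤ) + i • c = t' + j • c := h1
    rcases lt_trichotomy i j with h | h | h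
    · obtain ⟨l, rfl⟩ := Nat.exists_eq_add_of_lt h
      refine ⟨l + 1, by omega, t, t.2, t', t'.2, ?_⟩
      have h4 : (i + l + 1) • c = i • c + (l + 1) • c := by rw [← add_smul, add_assoc]
      rw [h4] at h3
      rw [eq_sub_iff_add_eq]
      have h5 : (t : ι → ℤ) + i • c = ((l + 1) • c + t') + i • c := by
        rw [h3]
        abel
      exact (add_right_cancel h5).symm
    · exfalso
      subst h
      exact h2 (Prod.ext rfl (Subtype.ext (add_right_cancel h3)))
    · obtain ⟨l, rfl⟩ := Nat.exists_eq_add_of_lt h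
      refine ⟨l + 1, by omega, t', t'.2, t, t.2, ?_⟩
      have h4 : (j + l + 1) • c = j • c + (l + 1) • c := by rw [← add_smul, add_assoc]
      rw [h4] at h3
      rw [eq_sub_iff_add_eq]
      have h5 : (t' : ι → ℤ) + j • c = ((l + 1) • c + t) + j • c := by
        rw [← h3]
        abel
      exact (add_right_cancel h5).symm

/-- Differences of a saturated monoid are saturated. -/
theorem sat_diff {ι : Type} [Fintype ι] {T : AddSubmonoid (ι → ℤ)} (hs : Sat T) {c : ι → ℤ} {N : ℕ}
    (hN : 0 < N) (h : ∃ b ∈ T, ∃ b' ∈ T, N • c = b - b') : ∃ b ∈ T, ∃ b' ∈ T, c = b - b' := by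
  obtain ⟨b, hb, b', hb', h⟩ := h
  obtain ⟨N, rfl⟩ : ∃ M, N = M + 1 := ⟨N - 1, by omega⟩
  refine ⟨c + b', hs _ (N + 1) hN ?_, b', hb', by abel⟩
  have h1 : (N + 1) • (c + b') = b + N • b' := by
    rw [smul_add, h, add_smul N 1 b', one_smul]
    abel
  rw [h1]
  exact T.add_mem hb (T.nsmul_mem hb' N)

theorem algebraic_frac {A : Subalgebra k K} {θ : K} (hθ : θ ∈ ncl A) {z : K}
    (hz : z ∈ frac (adj A θ)) : IsAlgebraic A z := by
  obtain ⟨b, hb, c, hc, hc0, rfl⟩ := hz
  have h1 : adj A θ ≤ ncl A := adj_le (le_ncl A) hθ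
  have h2 : IsIntegral A b := h1 hb
  have h3 : IsIntegral A c := h1 hc
  rw [div_eq_mul_inv]
  exact h2.isAlgebraic.mul h3.isAlgebraic.inv

section Chart

variable {V : ValuationSubring K} {P : Submodule k K} {n : ℕ} {ι : Type} [Fintype ι]
  [DecidableEq ι] {Q : ι → Submodule k K} {a : ι → ℕ} {e : ℕ} (C : TChart n P Q a e)

include C in
theorem chart_theta : C.θ ∈ ncl (tor k C.x C.y C.T) :=
  Pool.Agent.TG.mem_ncl_of_root C.Φ C.monic (fun i => le_ncl _ (C.coeff i)) C.root

/-- The monoid of a chart generates `ℤ ^ r`. -/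
theorem chart_full (hP : IsModel P) (hF : Fin' P) (hV : ZDim k V) (hU : ∀ z ∈ C.F, z ∈ V)
    (c : Fin C.r → ℤ) : ∃ b ∈ C.T, ∃ b' ∈ C.T, c = b - b' := by
  have h1 := algebraic_frac (chart_theta C) (chart_frac C hP hF hV hU (mon C.x c))
  have h2 : mon C.x c = mon (Sum.elim C.x C.y) (exl C.D c) := by
    rw [mon_elim]
    simp [exl]
  rw [h2, tor_eq C.x C.y C.x_ne (ind_y C.ind)] at h1
  obtain ⟨N, hN, b, hb, b', hb', h3⟩ := exists_of_algebraic C.ind h1
  refine sat_diff (chart_sat C) hN ⟨_, hb.1, _, hb'.1, ?_⟩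
  funext i
  have h4 := congrFun h3 (Sum.inl i)
  exact h4

/-- **DM** for every exponent `c`. -/
theorem dm_chart' (hP : IsModel P) (hF : Fin' P) (hV : ZDim k V) (hU : ∀ z ∈ C.F, z ∈ V) {e' : ℕ}
    (he : 0 < e') {c : Fin C.r → ℤ} {z : K}
    (hz : z ^ e' / Pool.Agent.TG.mon C.x c ∈ NV V P) :
    z ∈ Submodule.span (NV V P) (Pool.Agent.TG.mon C.x '' {m | e' • m - c ∈ C.T}) :=
  dm_chart C hP hF hV hU he (chart_full C hP hF hV hU c) hz

end Chart

end Pool.Agent.TGh53
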