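import Pool.Agent.Lib.TGA_h53.Sel

/-!
# TANK G, row E5: the new charts
-/

set_option autoImplicit false

open scoped BigOperators
open Polynomial

namespace Pool.Agent.TGh53

open Pool.Agent.LU2 (locV le_locV locV_mono locV_le locV_inv locV_mem locV_locV)
open Pool.Agent.TG (ncl tor le_ncl ncl_mono Ov ZDim IsMin IsModel Fin' NV RV NV_eq ch chN TChart
  ncl_mem ch_le exists_isMin HasAtlas NV_le valg bl)
open Pool.Agent.TG.CB (Prin isModel_prod)

universe u

variable {k K : Type u} [Field k] [Field K] [Algebra k K] {V : ValuationSubring K}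

section S2

variable {n : ℕ} {P : Submodule k K} {ι : Type} [Fintype ι] [DecidableEq ι]
  {Q : ι → Submodule k K} {a : ι → ℕ} {e : ℕ} (C : TChart n P Q a e)

theorem tor_mono {r D : ℕ} (x : Fin r → K) (y : Fin D → K) {T T' : Set (Fin r → ℤ)} (h : T ⊆ T') :
    tor k x y T ≤ tor k x y T' :=
  Algebra.adjoin_mono (Set.union_subset_union_left _ (Set.image_mono h))

include C in
/-- **S2**: the local ring of a new chart. -/
theorem new_ring (hP : IsModel P) (hF : Fin' P) (hV : ZDim k V) (hU : ∀ z ∈ C.F, z ∈ V)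
    {G : Set (Fin C.r → ℤ)} (hG : ∀ g ∈ G, Pool.Agent.TG.mon C.x g ∈ V)
    {T' : AddSubmonoid (Fin C.r → ℤ)} (hfg : T'.FG)
    (hT' : ∀ m, m ∈ T' ↔ ∃ N : ℕ, 0 < N ∧ N • m ∈ AddSubmonoid.closure ((C.T : Set _) ∪ G)) :
    locV V (ncl (Algebra.adjoin k ((NV V P : Set K) ∪ Pool.Agent.TG.mon C.x '' G))) =
      locV V (Algebra.adjoin k ((tor k C.x C.y T' : Set K) ∪ {C.θ})) := by
  have hx := C.x_ne
  have hTT : (C.T : Set (Fin C.r → ℤ)) ⊆ T' := fun m hm =>
    (hT' m).2 ⟨1, one_pos, by rw [one_smul]; exact AddSubmonoid.subset_closure (Or.inl hm)⟩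
  have hGT : G ⊆ T' := fun m hm =>
    (hT' m).2 ⟨1, one_pos, by rw [one_smul]; exact AddSubmonoid.subset_closure (Or.inr hm)⟩
  have hS : Sat T' := by
    intro m N hN hm
    obtain ⟨M, hM, h⟩ := (hT' _).1 hm
    refine (hT' m).2 ⟨M * N, Nat.mul_pos hM hN, ?_⟩
    rw [mul_smul]
    exact h
  have hNV : NV V P = locV V (adj (tor k C.x C.y C.T) C.θ) := C.ring V hV hU
  have hle := tor_mono (k := k) C.x C.y hTT
  set B := Algebra.adjoin k ((NV V P : Set K) ∪ Pool.Agent.TG.mon C.x '' G) with hB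
  have hNB : NV V P ≤ B := fun z hz => Algebra.subset_adjoin (Or.inl hz)
  have hBV : ∀ z ∈ B, z ∈ V := by
    have : B ≤ valg hV.ov := by
      refine Algebra.adjoin_le ?_
      rintro z (hz | ⟨g, hg, rfl⟩)
      · exact NV_le hV.ov hP z hz
      · exact hG g hg
    exact fun z hz => this hz
  have hcl : ∀ m ∈ AddSubmonoid.closure ((C.T : Set _) ∪ G), Pool.Agent.TG.mon C.x m ∈ B := by
    intro m hm
    induction hm using AddSubmonoid.closure_induction with
    | mem m hm =>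
      rcases hm with hm | hm
      · refine hNB ?_
        rw [hNV]
        exact le_locV _ (le_adj _ _ (Algebra.subset_adjoin (Or.inl ⟨m, hm, rfl⟩)))
      · exact Algebra.subset_adjoin (Or.inr ⟨m, hm, rfl⟩)
    | zero => rw [Pool.Agent.TG.mon_zero]; exact B.one_mem
    | add p q _ _ hp hq => rw [Pool.Agent.TG.mon_add hx]; exact B.mul_mem hp hq
  have htor : tor k C.x C.y T' ≤ ncl B := by
    refine Algebra.adjoin_le ?_
    rintro z (⟨m, hm, rfl⟩ | ⟨j, rfl⟩)
    · obtain ⟨N, hN, h⟩ := (hT' m).1 hm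
      have h1 := hcl _ h
      rw [Pool.Agent.TG.mon_nsmul] at h1
      exact IsIntegral.of_pow hN (le_ncl _ h1)
    · refine le_ncl _ (hNB ?_)
      rw [hNV]
      exact le_locV _ (le_adj _ _ (Algebra.subset_adjoin (Or.inr (Set.mem_range_self j))))
  have hAV : ∀ z ∈ tor k C.x C.y T', z ∈ V := fun z hz => ncl_mem hBV z (htor hz)
  have hE : locV V (ncl (tor k C.x C.y T')) = locV V (adj (tor k C.x C.y T') C.θ) := by
    refine etale_ncl hAV (nrm_tor C.ind hfg hS) C.monic (fun i => hle (C.coeff i)) C.root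
      (C.der V hV hU) fun z => ?_
    refine frac_mono ?_ (chart_frac C hP hF hV hU z)
    exact adj_le (hle.trans (le_adj _ _)) (mem_adj _ _)
  refine Eq.trans ?_ hE
  refine Pool.Agent.TG.locV_ncl_eq ?_ ?_
  · refine Algebra.adjoin_le ?_
    rintro z (hz | ⟨g, hg, rfl⟩)
    · have hz' : z ∈ NV V P := hz
      rw [hNV] at hz'
      rw [hE]
      exact locV_mono (adj_le (hle.trans (le_adj _ _)) (mem_adj _ _)) hz'
    · exact Pool.Agent.TG.le_locV_ncl _ (Algebra.subset_adjoin (Or.inl ⟨g, hGT hg, rfl⟩))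
  · exact htor.trans (le_locV _)

end S2

section New

variable {n : ℕ} {P : Submodule k K} {ι : Type} [Fintype ι] [DecidableEq ι]
  {Q : ι → Submodule k K} {e : ℕ}

/-- The exponent of `d`. -/
def ex {ι : Type} {e : ℕ} (d : ι → Fin e) : ι → ℤ := fun j => ((d j : ℕ) : ℤ)

/-- `R d / f ^ M` generates the ideal of the roots of the monomial of exponent `d`. -/
structure FamAt {a : ι → ℕ} (C : TChart n P Q a e) (M : ℕ) (R : (ι → Fin e) → Submodule k K) :
    Prop where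
  h1 : ∀ V : ValuationSubring K, ZDim k V → (∀ z ∈ C.F, z ∈ V) → ∀ d, ∀ q ∈ R d,
    q / C.f ^ M ∈ Submodule.span (NV V P)
      (Pool.Agent.TG.mon C.x '' {m | e • m - C.φ (ex d) ∈ C.T})
  h2 : ∀ V : ValuationSubring K, ZDim k V → (∀ z ∈ C.F, z ∈ V) → ∀ d, ∀ m,
    e • m - C.φ (ex d) ∈ C.T → Pool.Agent.TG.mon C.x m ∈ Submodule.span (NV V P)
      ((fun q => q / C.f ^ M) '' (R d : Set K))

variable {M : ℕ} {R : (ι → Fin e) → Submodule k K}

/-- The open set of the new chart. -/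
noncomputable def newF [DecidableEq K] {a : ι → ℕ} (C : TChart n P Q a e)
    (G : (ι → Fin e) → Finset (Fin C.r → ℤ)) (B : (ι → Fin e) → Finset K)
    (mm : (ι → Fin e) → Fin C.r → ℤ) (qq : (ι → Fin e) → K) : Finset K :=
  C.F ∪ ((Finset.univ.biUnion fun d => (G d).image fun m => Pool.Agent.TG.mon C.x (m - mm d)) ∪
    Finset.univ.biUnion fun d => (B d).image fun q => q / qq d)

theorem forall_newF [DecidableEq K] {a : ι → ℕ} {C : TChart n P Q a e}
    {G : (ι → Fin e) → Finset (Fin C.r → ℤ)} {B : (ι → Fin e) → Finset K}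
    {mm : (ι → Fin e) → Fin C.r → ℤ} {qq : (ι → Fin e) → K} :
    (∀ z ∈ newF C G B mm qq, z ∈ V) ↔ (∀ z ∈ C.F, z ∈ V) ∧
      (∀ d, ∀ m ∈ G d, Pool.Agent.TG.mon C.x (m - mm d) ∈ V) ∧ ∀ d, ∀ q ∈ B d, q / qq d ∈ V := by
  simp only [newF, Finset.mem_union, Finset.mem_biUnion, Finset.mem_univ, true_and,
    Finset.mem_image]
  constructor
  · intro h
    exact ⟨fun z hz => h z (Or.inl hz), fun d m hm => h _ (Or.inr (Or.inl ⟨d, m, hm, rfl⟩)),
      fun d q hq => h _ (Or.inr (Or.inr ⟨d, q, hq, rfl⟩))⟩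
  · rintro ⟨h1, h2, h3⟩ z (hz | ⟨d, m, hm, rfl⟩ | ⟨d, q, hq, rfl⟩)
    · exact h1 z hz
    · exact h2 d m hm
    · exact h3 d q hq

/-- The new exponent map. -/
noncomputable def newφ {r : ℕ} (φ : (ι → ℤ) →+ (Fin r → ℤ)) (mm : (ι → Fin e) → Fin r → ℤ) :
    (ι ⊕ (ι → Fin e) → ℤ) →+ (Fin r → ℤ) where
  toFun b := φ (fun j => b (Sum.inl j)) + ∑ d, b (Sum.inr d) • (mm d - ∑ d', mm d')
  map_zero' := by
    have h1 : (fun j : ι => (0 : ι ⊕ (ι → Fin e) → ℤ) (Sum.inl j)) = 0 := rfl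
    rw [h1, map_zero, zero_add]
    exact Finset.sum_eq_zero fun d _ => by rw [Pi.zero_apply, zero_smul]
  map_add' b b' := by
    have h1 : (fun j : ι => (b + b') (Sum.inl j)) =
      (fun j => b (Sum.inl j)) + fun j => b' (Sum.inl j) := rfl
    rw [h1, map_add]
    simp only [Pi.add_apply, add_smul, Finset.sum_add_distrib]
    abel

theorem newφ_apply {r : ℕ} (φ : (ι → ℤ) →+ (Fin r → ℤ)) (mm : (ι → Fin e) → Fin r → ℤ)
    (b : ι ⊕ (ι → Fin e) → ℤ) : newφ φ mm b =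
      φ (fun j => b (Sum.inl j)) + ∑ d, b (Sum.inr d) • (mm d - ∑ d', mm d') := rfl

theorem newφ_inl {r : ℕ} (φ : (ι → ℤ) →+ (Fin r → ℤ)) (mm : (ι → Fin e) → Fin r → ℤ) (j : ι) :
    newφ φ mm (Pi.single (Sum.inl j) 1) = φ (Pi.single j 1) := by
  rw [newφ_apply, Finset.sum_eq_zero, add_zero]
  · congr 1
    funext i
    by_cases h : i = j
    · subst h
      rw [Pi.single_eq_same, Pi.single_eq_same]
    · rw [Pi.single_eq_of_ne h, Pi.single_eq_of_ne (by simpa using h)]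
  · intro d _
    rw [Pi.single_eq_of_ne (by simp), zero_smul]

theorem newφ_inr {r : ℕ} (φ : (ι → ℤ) →+ (Fin r → ℤ)) (mm : (ι → Fin e) → Fin r → ℤ)
    (d : ι → Fin e) :
    newφ φ mm (Pi.single (Sum.inr d) 1) = mm d - ∑ d', mm d' := by
  rw [newφ_apply, Finset.sum_eq_single d, Pi.single_eq_same, one_smul]
  · have h1 : (fun j : ι => (Pi.single (Sum.inr d) 1 : ι ⊕ (ι → Fin e) → ℤ) (Sum.inl j)) = 0 := by
      funext j
      rw [Pi.single_eq_of_ne (by simp)]
      rfl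
    rw [h1, map_zero, zero_add]
  · intro d' _ hd
    rw [Pi.single_eq_of_ne (by simpa using hd), zero_smul]
  · exact fun h => absurd (Finset.mem_univ d) h

/-- The new exponent map is onto. -/
theorem newφ_onto {r : ℕ} (he : 0 < e) (φ : (ι → ℤ) →+ (Fin r → ℤ))
    (mm : (ι → Fin e) → Fin r → ℤ) (htors : ∀ m : Fin r → ℤ, ∃ b : ι → ℤ, φ b = e • m)
    (hmm : ∀ d m₀, φ (ex d) = e • m₀ → mm d = m₀) (m : Fin r → ℤ) :
    ∃ b, newφ φ mm b = m := by
  classical
  obtain ⟨b₀, hb₀⟩ := htors m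
  have he' : (e : ℤ) ≠ 0 := by exact_mod_cast he.ne'
  have he'' : (0 : ℤ) < e := by exact_mod_cast he
  let d : ι → Fin e := fun j => ⟨(b₀ j % e).toNat, by
    have h1 := Int.emod_nonneg (b₀ j) he'
    have h2 := Int.emod_lt_of_pos (b₀ j) he''
    omega⟩
  let b₁ : ι → ℤ := fun j => b₀ j / e
  let d₀ : ι → Fin e := fun _ => ⟨0, he⟩
  have h1 : b₀ = ex d + e • b₁ := by
    funext j
    change b₀ j = (((b₀ j % e).toNat : ℕ) : ℤ) + e • (b₀ j / e)
    rw [Int.toNat_of_nonneg (Int.emod_nonneg _ he'), nsmul_eq_mul]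
    exact (Int.emod_add_mul_ediv _ _).symm
  have h2 : φ (ex d) = e • (m - φ b₁) := by
    rw [h1, map_add, map_nsmul] at hb₀
    rw [smul_sub, ← hb₀, add_sub_cancel_right]
  have h3 : mm d = m - φ b₁ := hmm d _ h2
  have h4 : mm d₀ = 0 := by
    refine hmm d₀ 0 ?_
    have : ex d₀ = 0 := rfl
    rw [this, map_zero, smul_zero]
  refine ⟨Sum.elim b₁ (Pi.single d 1 - Pi.single d₀ 1), ?_⟩
  rw [newφ_apply]
  have h5 : ∀ (d₁ : ι → Fin e), ∑ d', (Pi.single d₁ 1 : (ι → Fin e) → ℤ) d' •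
      (mm d' - ∑ d', mm d') = mm d₁ - ∑ d', mm d' := by
    intro d₁
    rw [Finset.sum_eq_single d₁, Pi.single_eq_same, one_smul]
    · intro d' _ hd
      rw [Pi.single_eq_of_ne hd, zero_smul]
    · exact fun h => absurd (Finset.mem_univ d₁) h
  have h6 : ∑ d', (Sum.elim b₁ (Pi.single d 1 - Pi.single d₀ 1) : ι ⊕ (ι → Fin e) → ℤ) (Sum.inr d')
      • (mm d' - ∑ d', mm d') = (mm d - ∑ d', mm d') - (mm d₀ - ∑ d', mm d') := by
    rw [← h5 d, ← h5 d₀, ← Finset.sum_sub_distrib]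
    refine Finset.sum_congr rfl fun d' _ => ?_
    rw [Sum.elim_inr, Pi.sub_apply, sub_smul]
  rw [h6, h3, h4]
  change φ b₁ + _ = m
  abel

end New

end Pool.Agent.TGh53
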