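import Pool.Agent.Lib.TGA_h53.New

/-!
# TANK G, row E5: the new charts, construction
-/

set_option autoImplicit false

open scoped BigOperators
open Polynomial

namespace Pool.Agent.TGh53

open Pool.Agent.LU2 (locV le_locV locV_mono locV_le locV_inv locV_mem locV_locV)
open Pool.Agent.TG (ncl tor le_ncl ncl_mono Ov ZDim IsMin IsModel Fin' NV RV NV_eq ch chN TChart
  ncl_mem ch_le exists_isMin HasAtlas NV_le valg bl)
open Pool.Agent.TG.CB (Prin isModel_prod)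

universe u

variable {k K : Type u} [Field k] [Field K] [Algebra k K] {V : ValuationSubring K}

section New

variable {n : ℕ} {P : Submodule k K} {ι : Type} [Fintype ι] [DecidableEq ι]
  {Q : ι → Submodule k K} {e : ℕ} {M : ℕ} {R : (ι → Fin e) → Submodule k K}

theorem RV_le_prod (hV : Ov k V) (hP : IsModel P) {κ : Type*} [Fintype κ]
    {R : κ → Submodule k K} (hR : ∀ d, IsModel (R d)) (d : κ) :
    RV V (R d) ≤ RV V (P * ∏ d, R d) := by
  classical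
  have h1 : IsModel (∏ d, R d) := isModel_prod _ fun d _ => hR d
  have h2 : IsModel (∏ d' ∈ Finset.univ.erase d, R d') := isModel_prod _ fun d _ => hR d
  refine le_trans ?_ (Pool.Agent.TG.RV_le_mul_right hV hP h1)
  rw [← Finset.mul_prod_erase Finset.univ R (Finset.mem_univ d)]
  exact Pool.Agent.TG.RV_le_mul_left hV (hR d) h2

section Data

variable {a : ι → ℕ} {C : TChart n P Q a e} {G : (ι → Fin e) → Finset (Fin C.r → ℤ)}
  {B : (ι → Fin e) → Finset K} {mm : (ι → Fin e) → Fin C.r → ℤ} {qq : (ι → Fin e) → K}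

/-- The data of a new chart. -/
structure Dat (C : TChart n P Q a e) (M : ℕ) (R : (ι → Fin e) → Submodule k K)
    (G : (ι → Fin e) → Finset (Fin C.r → ℤ)) (B : (ι → Fin e) → Finset K)
    (mm : (ι → Fin e) → Fin C.r → ℤ) (qq : (ι → Fin e) → K) : Prop where
  hP : IsModel P
  hF : Fin' P
  hR : ∀ d, IsModel (R d)
  fam : FamAt C M R
  g1 : ∀ d, ∀ m ∈ G d, e • m - C.φ (ex d) ∈ C.T
  g2 : ∀ d m, e • m - C.φ (ex d) ∈ C.T → ∃ m' ∈ G d, m - m' ∈ C.T
  g3 : ∀ d m₀, C.φ (ex d) = e • m₀ → ∀ m ∈ G d, m = m₀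
  hB : ∀ d, Submodule.span k (B d : Set K) = R d
  hm : ∀ d, mm d ∈ G d
  hq : ∀ d, qq d ∈ B d
  hq0 : ∀ d, qq d ≠ 0

variable (hD : Dat C M R G B mm qq)

include hD

theorem Dat.isMin (hV : ZDim k V) (h3 : ∀ d, ∀ q ∈ B d, q / qq d ∈ V) (d : ι → Fin e) :
    IsMin V (R d) (qq d) := by
  rw [← hD.hB d]
  exact Pool.Agent.TG.isMin_of_span hV.ov (Submodule.subset_span (hD.hq d)) (hD.hq0 d)
    fun g hg => h3 d g hg

theorem Dat.two (hV : ZDim k V) (h1 : ∀ z ∈ C.F, z ∈ V)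
    (h2 : ∀ d, ∀ m ∈ G d, Pool.Agent.TG.mon C.x (m - mm d) ∈ V) (h3 : ∀ d, ∀ q ∈ B d, q / qq d ∈ V)
    (d : ι → Fin e) : Two V (NV V P) (R d) (C.f ^ M) (Pool.Agent.TG.mon C.x '' (G d : Set _)) (qq d)
      (Pool.Agent.TG.mon C.x (mm d)) := by
  have hx := C.x_ne
  have hf := (C.min V hV h1).ne
  refine ⟨hV.ov, NV_le hV.ov hD.hP, pow_ne_zero _ hf, Pool.Agent.TG.mon_ne_zero hx _,
    ⟨_, hD.hm d, rfl⟩, ?_, hD.isMin hV h3 d, ?_, ?_⟩
  · rintro _ ⟨m, hm, rfl⟩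
    rw [← Pool.Agent.TG.mon_sub hx]
    exact h2 d m hm
  · intro w hw
    have h4 := hD.fam.h1 V hV h1 d w hw
    refine Submodule.span_le.2 ?_ h4
    rintro _ ⟨m, hm, rfl⟩
    obtain ⟨m', hm', ht⟩ := hD.g2 d m hm
    have h5 : Pool.Agent.TG.mon C.x m = Pool.Agent.TG.mon C.x (m - m') *
        Pool.Agent.TG.mon C.x m' := by
      rw [← Pool.Agent.TG.mon_add hx, sub_add_cancel]
    have h6 : Pool.Agent.TG.mon C.x (m - m') ∈ NV V P := by
      rw [C.ring V hV h1]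
      exact le_locV _ (Algebra.subset_adjoin (Or.inl (Algebra.subset_adjoin (Or.inl ⟨_, ht, rfl⟩))))
    rw [h5]
    exact Submodule.smul_mem _ (⟨_, h6⟩ : NV V P) (Submodule.subset_span ⟨m', hm', rfl⟩)
  · rintro _ ⟨m, hm, rfl⟩
    exact hD.fam.h2 V hV h1 d m (hD.g1 d m hm)

theorem Dat.hEm : IsModel (∏ d, R d) := isModel_prod _ fun d _ => hD.hR d

theorem Dat.isMinE (hV : ZDim k V) (h3 : ∀ d, ∀ q ∈ B d, q / qq d ∈ V) :
    IsMin V (∏ d, R d) (∏ d, qq d) := isMin_prod' hV.ov _ _ fun d _ => hD.isMin hV h3 d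

theorem Dat.ratio (hV : ZDim k V) (h3 : ∀ d, ∀ q ∈ B d, q / qq d ∈ V) (d : ι → Fin e) :
    ∀ w ∈ R d, w / qq d ∈ NV V (P * ∏ d, R d) := fun _ hw =>
  Pool.Agent.TG.RV_le_NV (RV_le_prod hV.ov hD.hP hD.hR d
    (Pool.Agent.TG.div_mem_RV (hD.isMin hV h3 d) hw))

theorem Dat.NV_le' (hV : ZDim k V) : NV V P ≤ NV V (P * ∏ d, R d) :=
  Pool.Agent.TG.NV_mono (Pool.Agent.TG.RV_le_mul_left hV.ov hD.hP hD.hEm)

theorem Dat.left (hV : ZDim k V) (h1 : ∀ z ∈ C.F, z ∈ V)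
    (h2 : ∀ d, ∀ m ∈ G d, Pool.Agent.TG.mon C.x (m - mm d) ∈ V) (h3 : ∀ d, ∀ q ∈ B d, q / qq d ∈ V)
    (d : ι → Fin e) :
    (∀ x ∈ Pool.Agent.TG.mon C.x '' (G d : Set _), x / Pool.Agent.TG.mon C.x (mm d) ∈
      NV V (P * ∏ d, R d)) ∧
    Pool.Agent.TG.mon C.x (mm d) / (qq d / C.f ^ M) ∈ NV V (P * ∏ d, R d) :=
  (hD.two hV h1 h2 h3 d).left (hD.NV_le' hV) (fun _ hz hz1 => Pool.Agent.TG.NV_inv hz hz1)
    (hD.ratio hV h3 d)

/-- The local ring. -/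
theorem Dat.ring (hV : ZDim k V) (h1 : ∀ z ∈ C.F, z ∈ V)
    (h2 : ∀ d, ∀ m ∈ G d, Pool.Agent.TG.mon C.x (m - mm d) ∈ V)
    (h3 : ∀ d, ∀ q ∈ B d, q / qq d ∈ V) :
    NV V (P * ∏ d, R d) = locV V (ncl (Algebra.adjoin k ((NV V P : Set K) ∪
      Pool.Agent.TG.mon C.x '' {g | ∃ d, ∃ m ∈ G d, g = m - mm d}))) := by
  have hx := C.x_ne
  rw [Pool.Agent.TG.NV_mul_bl (C.min V hV h1) (hD.isMinE hV h3)]
  set S := Algebra.adjoin k ((NV V P : Set K) ∪
      Pool.Agent.TG.mon C.x '' {g | ∃ d, ∃ m ∈ G d, g = m - mm d}) with hS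
  have hNS : NV V P ≤ S := fun z hz => Algebra.subset_adjoin (Or.inl hz)
  refine Pool.Agent.TG.locV_ncl_eq ?_ ?_
  · refine Pool.Agent.TG.bl_le (hNS.trans (Pool.Agent.TG.le_locV_ncl _)) fun g hg => ?_
    have h4 : ∀ d, Prin V (locV V S) (R d) (qq d) := by
      intro d
      refine prin_of_isMin (hD.isMin hV h3 d) ?_
      refine ((hD.two hV h1 h2 h3 d).right (hNS.trans (le_locV _))
        (fun _ hz hz1 => locV_inv hz hz1) ?_).1
      rintro _ ⟨m, hm, rfl⟩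
      rw [← Pool.Agent.TG.mon_sub hx]
      exact le_locV _ (Algebra.subset_adjoin (Or.inr ⟨_, ⟨d, m, hm, rfl⟩, rfl⟩))
    have h5 := Prin.prod Finset.univ fun d _ => h4 d
    exact Pool.Agent.TG.locV_le_ncl _ (h5.div g hg)
  · rw [← Pool.Agent.TG.NV_mul_bl (C.min V hV h1) (hD.isMinE hV h3)]
    refine Algebra.adjoin_le ?_
    rintro z (hz | ⟨_, ⟨d, m, hm, rfl⟩, rfl⟩)
    · exact hD.NV_le' hV hz
    · rw [Pool.Agent.TG.mon_sub hx]
      exact (hD.left hV h1 h2 h3 d).1 _ ⟨m, hm, rfl⟩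

/-- The new classes. -/
theorem Dat.cls (he : 0 < e) (hV : ZDim k V) (h1 : ∀ z ∈ C.F, z ∈ V)
    (h2 : ∀ d, ∀ m ∈ G d, Pool.Agent.TG.mon C.x (m - mm d) ∈ V)
    (h3 : ∀ d, ∀ q ∈ B d, q / qq d ∈ V) (d : ι → Fin e) :
    Prin V (NV V (P * ∏ d, R d)) (R d * P ^ (1 + (Fintype.card (ι → Fin e) - 1) * M))
      (Pool.Agent.TG.mon C.x (mm d - ∑ d', mm d') * (C.f * ∏ d, qq d)) := by
  have hx := C.x_ne
  have hf := C.min V hV h1
  have h4 := (hD.two hV h1 h2 h3 d).prin (hD.NV_le' hV) (hD.left hV h1 h2 h3 d).1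
  have h5 : Prin V (NV V (P * ∏ d, R d)) P C.f := by
    refine prin_of_isMin hf fun w hw => ?_
    exact hD.NV_le' hV (Pool.Agent.TG.RV_le_NV (Pool.Agent.TG.div_mem_RV hf hw))
  have h6 := h4.mul (h5.pow (1 + (Fintype.card (ι → Fin e) - 1) * M))
  set u : (ι → Fin e) → K := fun d => Pool.Agent.TG.mon C.x (mm d) with hu
  have hu0 : ∀ d, u d ≠ 0 := fun d => Pool.Agent.TG.mon_ne_zero hx _
  have hf0 := hf.ne
  have hq0 := hD.hq0
  refine Prin.unit (w := ∏ d, u d / (qq d / C.f ^ M)) h6 ?_ ?_ ?_ ?_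
  · have hcard : 0 < Fintype.card (ι → Fin e) :=
      Fintype.card_pos_iff.2 ⟨fun _ => ⟨0, he⟩⟩
    have h7 : ∏ d, u d / (qq d / C.f ^ M) = Pool.Agent.TG.mon C.x (∑ d, mm d) *
        C.f ^ (M * Fintype.card (ι → Fin e)) / ∏ d, qq d := by
      rw [Pool.Agent.TG.mon_sum hx, pow_mul, eq_div_iff (Finset.prod_ne_zero_iff.2 fun d _ => hq0 d),
        ← Finset.prod_mul_distrib]
      have h8 : ∀ d, u d / (qq d / C.f ^ M) * qq d = u d * C.f ^ M := by
        intro d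
        have := hq0 d
        field_simp
      rw [Finset.prod_congr rfl fun d _ => h8 d, Finset.prod_mul_distrib, Finset.prod_const,
        Finset.card_univ]
    rw [h7, Pool.Agent.TG.mon_sub hx]
    have h9 := Pool.Agent.TG.mon_ne_zero hx (∑ d', mm d')
    have h10 : (∏ d, qq d) ≠ 0 := Finset.prod_ne_zero_iff.2 fun d _ => hq0 d
    obtain ⟨c, hc⟩ : ∃ c, Fintype.card (ι → Fin e) = c + 1 := ⟨_, (Nat.succ_pred_eq_of_pos hcard).symm⟩
    rw [hc, Nat.add_sub_cancel]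
    field_simp
    ring
  · exact Subalgebra.prod_mem _ fun d _ => (hD.left hV h1 h2 h3 d).2
  · rw [map_prod]
    exact Finset.prod_eq_one fun d _ => (hD.two hV h1 h2 h3 d).val
  · exact mul_ne_zero (Pool.Agent.TG.mon_ne_zero hx _)
      (mul_ne_zero hf0 (Finset.prod_ne_zero_iff.2 fun d _ => hq0 d))

end Data

/-- **The new chart.** -/
theorem exists_chart [DecidableEq K] (he : 0 < e) {C : TChart n P Q (fun _ => 0) e}
    {G : (ι → Fin e) → Finset (Fin C.r → ℤ)}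
    {B : (ι → Fin e) → Finset K} {mm : (ι → Fin e) → Fin C.r → ℤ} {qq : (ι → Fin e) → K}
    (hD : Dat C M R G B mm qq) :
    ∃ C' : TChart n (P * ∏ d, R d)
      (Sum.elim Q fun d => R d * P ^ (1 + (Fintype.card (ι → Fin e) - 1) * M))
      (Sum.elim (fun _ => 0) fun _ => 1) 1, C'.F = newF C G B mm qq := by
  have hx := C.x_ne
  have hgfin : {g | ∃ d, ∃ m ∈ G d, g = m - mm d}.Finite := by
    have : {g | ∃ d, ∃ m ∈ G d, g = m - mm d} = ⋃ d, (fun m => m - mm d) '' (G d : Set _) := by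
      ext g
      simp only [Set.mem_ofPred_eq, Set.mem_iUnion, Set.mem_image, Finset.mem_coe]
      constructor
      · rintro ⟨d, m, hm, rfl⟩
        exact ⟨d, m, hm, rfl⟩
      · rintro ⟨d, m, hm, rfl⟩
        exact ⟨d, m, hm, rfl⟩
    rw [this]
    exact Set.finite_iUnion fun d => (Finset.finite_toSet _).image _
  obtain ⟨T', hT'fg, hT'⟩ := Pool.Agent.TG.rowE2a (AddSubmonoid.closure ((C.T : Set _) ∪
    {g | ∃ d, ∃ m ∈ G d, g = m - mm d})) (by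
      rw [AddSubmonoid.closure_union, AddSubmonoid.closure_eq]
      exact C.T_fg.sup ⟨hgfin.toFinset, by rw [Set.Finite.coe_toFinset]⟩)
  have hTT : (C.T : Set (Fin C.r → ℤ)) ⊆ T' := fun m hm =>
    (hT' m).2 ⟨1, one_pos, by rw [one_smul]; exact AddSubmonoid.subset_closure (Or.inl hm)⟩
  have hle := tor_mono (k := k) C.x C.y hTT
  refine ⟨{
    F := newF C G B mm qq
    f := C.f * ∏ d, qq d
    r := C.r
    D := C.D
    dim := C.dim
    x := C.x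
    x_ne := C.x_ne
    y := C.y
    ind := C.ind
    T := T'
    T_fg := hT'fg
    T_sat := ?_
    φ := newφ C.φ mm
    tors := ?_
    θ := C.θ
    Φ := C.Φ
    monic := C.monic
    coeff := fun i => hle (C.coeff i)
    root := C.root
    min := ?_
    ring := ?_
    der := ?_
    cls := ?_ }, rfl⟩
  · intro N m hN hm
    obtain ⟨M', hM, h⟩ := (hT' _).1 hm
    refine (hT' m).2 ⟨M' * N, Nat.mul_pos hM hN, ?_⟩
    rw [mul_smul]
    exact h
  · intro m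
    rw [one_smul]
    exact newφ_onto he C.φ mm C.tors (fun d m₀ h => hD.g3 d m₀ h _ (hD.hm d)) m
  · intro V hV hU
    obtain ⟨h1, h2, h3⟩ := forall_newF.1 hU
    exact (C.min V hV h1).mul (hD.isMinE hV h3)
  · intro V hV hU
    obtain ⟨h1, h2, h3⟩ := forall_newF.1 hU
    rw [hD.ring hV h1 h2 h3]
    refine new_ring C hD.hP hD.hF hV h1 ?_ hT'fg hT'
    rintro _ ⟨d, m, hm, rfl⟩
    exact h2 d m hm
  · intro V hV hU
    obtain ⟨h1, h2, h3⟩ := forall_newF.1 hU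
    exact C.der V hV h1
  · intro V hV hU
    obtain ⟨h1, h2, h3⟩ := forall_newF.1 hU
    rintro (j | d)
    · obtain ⟨h4, h5⟩ := C.cls V hV h1 j
      simp only [Sum.elim_inl, newφ_inl, pow_zero, mul_one] at h4 h5 ⊢
      exact ⟨fun q hq => hD.NV_le' hV (h4 q hq), h5⟩
    · have h4 := hD.cls he hV h1 h2 h3 d
      simp only [Sum.elim_inr, newφ_inr, pow_one]
      exact ⟨h4.div, h4.ex⟩

end New

end Pool.Agent.TGh53
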