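import Pool.Agent.Lib.TGA_h53.Full
import Pool.Agent.Lib.TGA_h96.Gordan
import Pool.Agent.Lib.TGA_h20.ClsBlow
import Pool.Agent.Lib.TG_h38.Blow

/-!
# TANK G, row E5: lemmas on families of ideals with two sets of generators
-/

set_option autoImplicit false

open scoped BigOperators
open Polynomial

namespace Pool.Agent.TGh53

open Pool.Agent.LU2 (locV le_locV locV_mono locV_le locV_inv locV_mem locV_locV)
open Pool.Agent.TG (ncl tor le_ncl ncl_mono Ov ZDim IsMin IsModel Fin' NV NV_eq ch chN TChart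
  ncl_mem ch_le exists_isMin HasAtlas NV_le valg)
open Pool.Agent.TG.CB (Prin isModel_prod)

universe u

variable {k K : Type u} [Field k] [Field K] [Algebra k K] {V : ValuationSubring K}

/-- `Fin'` passes to joins. -/
theorem fin_mul {P E : Submodule k K} (hF : Fin' P) (hE : IsModel E) : Fin' (P * E) := by
  obtain ⟨e, he, he0⟩ : ∃ e ∈ E, e ≠ 0 := by
    by_contra h
    push Not at h
    exact hE.ne ((Submodule.eq_bot_iff _).2 h)
  have hle : IntermediateField.adjoin k {x : K | ∃ f ∈ P, ∃ g ∈ P, x = g / f} ≤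
      IntermediateField.adjoin k {x : K | ∃ f ∈ P * E, ∃ g ∈ P * E, x = g / f} := by
    rw [IntermediateField.adjoin_le_iff]
    rintro x ⟨f, hf, g, hg, rfl⟩
    refine IntermediateField.subset_adjoin _ _ ⟨f * e, Submodule.mul_mem_mul hf he, g * e,
      Submodule.mul_mem_mul hg he, ?_⟩
    rw [mul_div_mul_right _ _ he0]
  let := (IntermediateField.inclusion hle).toRingHom.toAlgebra
  have : IsScalarTower (IntermediateField.adjoin k {x : K | ∃ f ∈ P, ∃ g ∈ P, x = g / f})
      (IntermediateField.adjoin k {x : K | ∃ f ∈ P * E, ∃ g ∈ P * E, x = g / f}) K :=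
    IsScalarTower.of_algebraMap_eq' rfl
  refine ⟨fun x => ?_⟩
  have h1 := Algebra.IsAlgebraic.isAlgebraic (self := hF) x
  exact h1.tower_top _

/-- Dividing a combination. -/
theorem div_span {O A : Subalgebra k K} (hOA : O ≤ A) {X : Set K} {u : K}
    (hX : ∀ x ∈ X, x / u ∈ A) {z : K} (hz : z ∈ Submodule.span O X) : z / u ∈ A := by
  induction hz using Submodule.span_induction with
  | mem x hx => exact hX x hx
  | zero => rw [zero_div]; exact A.zero_mem
  | add x y _ _ hx hy => rw [add_div]; exact A.add_mem hx hy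
  | smul a x _ hx =>
    rw [Algebra.smul_def, mul_div_assoc]
    exact A.mul_mem (hOA a.2) hx

/-- Two elements dividing each other in `V`. -/
theorem val_one {a b : K} (ha : a ≠ 0) (hb : b ≠ 0) (h1 : a / b ∈ V) (h2 : b / a ∈ V) :
    V.valuation (a / b) = 1 := by
  have h3 : V.valuation (a / b) ≤ 1 := (V.valuation_le_one_iff _).2 h1
  have h4 : V.valuation (b / a) ≤ 1 := (V.valuation_le_one_iff _).2 h2
  have h5 : V.valuation (a / b) * V.valuation (b / a) = 1 := by
    rw [← map_mul, div_mul_div_cancel₀ hb, div_self ha, map_one]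
  apply le_antisymm h3
  calc (1 : _) = V.valuation (a / b) * V.valuation (b / a) := h5.symm
    _ ≤ V.valuation (a / b) * 1 := by gcongr
    _ = _ := mul_one _

section Fam

/-- `W / c` and `X` generate the same `O`-module; `q ∈ W` and `u ∈ X` are minimal. -/
structure Two (V : ValuationSubring K) (O : Subalgebra k K) (W : Submodule k K) (c : K) (X : Set K)
    (q u : K) : Prop where
  ov : Ov k V
  le : ∀ a ∈ O, a ∈ V
  c0 : c ≠ 0
  u0 : u ≠ 0
  hu : u ∈ X
  hum : ∀ x ∈ X, x / u ∈ V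
  hq : IsMin V W q
  h1 : ∀ w ∈ W, w / c ∈ Submodule.span O X
  h2 : ∀ x ∈ X, x ∈ Submodule.span O ((fun w => w / c) '' (W : Set K))

variable {O : Subalgebra k K} {W : Submodule k K} {c : K} {X : Set K} {q u : K}

theorem Two.qc0 (h : Two V O W c X q u) : q / c ≠ 0 := div_ne_zero h.hq.ne h.c0

theorem Two.memV (h : Two V O W c X q u) : ∀ x ∈ X, x / (q / c) ∈ V := by
  intro x hx
  have h3 : O ≤ valg h.ov := h.le
  have h4 : x / (q / c) ∈ valg h.ov := by
    refine div_span h3 ?_ (h.h2 x hx)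
    rintro _ ⟨w, hw, rfl⟩
    change w / c / (q / c) ∈ V
    rw [div_div_div_cancel_right₀ h.c0]
    exact h.hq.div w hw
  exact h4

theorem Two.memV' (h : Two V O W c X q u) : ∀ w ∈ W, w / c / u ∈ V := by
  intro w hw
  have h3 : O ≤ valg h.ov := h.le
  have h4 : w / c / u ∈ valg h.ov := div_span h3 h.hum (h.h1 w hw)
  exact h4

theorem Two.val (h : Two V O W c X q u) : V.valuation (u / (q / c)) = 1 :=
  val_one h.u0 h.qc0 (h.memV u h.hu) (h.memV' q h.hq.mem)

theorem Two.val' (h : Two V O W c X q u) : V.valuation (q / c / u) = 1 :=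
  val_one h.qc0 h.u0 (h.memV' q h.hq.mem) (h.memV u h.hu)

/-- If the ratios of `W` are in `A` then so are the ratios of `X`. -/
theorem Two.left (h : Two V O W c X q u) {A : Subalgebra k K} (hOA : O ≤ A)
    (hA : ∀ a ∈ A, V.valuation a = 1 → a⁻¹ ∈ A) (hW : ∀ w ∈ W, w / q ∈ A) :
    (∀ x ∈ X, x / u ∈ A) ∧ u / (q / c) ∈ A := by
  have h3 : ∀ x ∈ X, x / (q / c) ∈ A := by
    intro x hx
    refine div_span hOA ?_ (h.h2 x hx)
    rintro _ ⟨w, hw, rfl⟩
    change w / c / (q / c) ∈ A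
    rw [div_div_div_cancel_right₀ h.c0]
    exact hW w hw
  have h4 : (u / (q / c))⁻¹ ∈ A := hA _ (h3 u h.hu) h.val
  refine ⟨fun x hx => ?_, h3 u h.hu⟩
  have h5 : x / u = x / (q / c) * (u / (q / c))⁻¹ := by
    have := h.hq.ne
    have := h.c0
    have := h.u0
    field_simp
  rw [h5]
  exact A.mul_mem (h3 x hx) h4

/-- If the ratios of `X` are in `A` then so are the ratios of `W`. -/
theorem Two.right (h : Two V O W c X q u) {A : Subalgebra k K} (hOA : O ≤ A)
    (hA : ∀ a ∈ A, V.valuation a = 1 → a⁻¹ ∈ A) (hX : ∀ x ∈ X, x / u ∈ A) :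
    (∀ w ∈ W, w / q ∈ A) ∧ ∀ w ∈ W, w / c / u ∈ A := by
  have h3 : ∀ w ∈ W, w / c / u ∈ A := fun w hw => div_span hOA hX (h.h1 w hw)
  have h4 : (q / c / u)⁻¹ ∈ A := hA _ (h3 q h.hq.mem) h.val'
  refine ⟨fun w hw => ?_, h3⟩
  have h5 : w / q = w / c / u * (q / c / u)⁻¹ := by
    have := h.hq.ne
    have := h.u0
    have := h.c0
    field_simp
  rw [h5]
  exact A.mul_mem (h3 w hw) h4

/-- `W` is principal, generated by `u * c`, once the ratios of `X` are in `A`. -/
theorem Two.prin (h : Two V O W c X q u) {A : Subalgebra k K} (hOA : O ≤ A)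
    (hX : ∀ x ∈ X, x / u ∈ A) : Prin V A W (u * c) := by
  refine ⟨mul_ne_zero h.u0 h.c0, fun w hw => ?_, q, h.hq.mem, ?_⟩
  · rw [mul_comm, ← div_div]
    exact div_span hOA hX (h.h1 w hw)
  · rw [mul_comm, ← div_div]
    exact h.val'

theorem prin_of_isMin {A : Subalgebra k K} (hq : IsMin V W q) (hW : ∀ w ∈ W, w / q ∈ A) :
    Prin V A W q := ⟨hq.ne, hW, q, hq.mem, by rw [div_self hq.ne, map_one]⟩

/-- Changing the generator by a unit. -/
theorem Prin.unit {A : Subalgebra k K} {c c' w : K} (h : Prin V A W c) (hc : c = c' * w)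
    (hw : w ∈ A) (hw1 : V.valuation w = 1) (hc' : c' ≠ 0) : Prin V A W c' := by
  have hw0 : w ≠ 0 := by
    rintro rfl
    rw [map_zero] at hw1
    exact zero_ne_one hw1
  have h3 : ∀ q, q / c' = q / c * w := by
    intro q
    rw [hc]
    field_simp
  refine ⟨hc', fun q hq => ?_, ?_⟩
  · rw [h3]
    exact A.mul_mem (h.div q hq) hw
  · obtain ⟨q, hq, h1⟩ := h.ex
    exact ⟨q, hq, by rw [h3, map_mul, h1, hw1, one_mul]⟩

theorem isMin_prod' (hV : Ov k V) {ι : Type*} {W : ι → Submodule k K}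
    (f : ι → K) (s : Finset ι) (hf : ∀ i ∈ s, IsMin V (W i) (f i)) :
    IsMin V (∏ i ∈ s, W i) (∏ i ∈ s, f i) := by
  classical
  induction s using Finset.induction_on with
  | empty =>
    rw [Finset.prod_empty, Finset.prod_empty]
    refine ⟨Submodule.one_le.1 le_rfl, one_ne_zero, fun x hx => ?_⟩
    obtain ⟨c, rfl⟩ := Submodule.mem_one.1 hx
    rw [div_one]
    exact hV c
  | insert i s hi ih =>
    rw [Finset.prod_insert hi, Finset.prod_insert hi]
    exact (hf i (Finset.mem_insert_self _ _)).mul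
      (ih fun j hj => hf j (Finset.mem_insert_of_mem hj))

end Fam

section Gen

/-- The generators of `{m | e m - c ∈ T}`; a single one if `c ∈ e ℤ ^ r`. -/
theorem exists_gen {r : ℕ} {T : AddSubmonoid (Fin r → ℤ)} (hT : T.FG) (hs : Sat T) {e : ℕ}
    (he : 0 < e) (c : Fin r → ℤ) : ∃ G : Finset (Fin r → ℤ), (∀ m ∈ G, e • m - c ∈ T) ∧
      (∀ m, e • m - c ∈ T → ∃ m' ∈ G, m - m' ∈ T) ∧
      ∀ m₀, c = e • m₀ → ∀ m ∈ G, m = m₀ := by
  classical
  have hinj : ∀ m m' : Fin r → ℤ, e • m = e • m' → m = m' := by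
    intro m m' h
    funext i
    have h1 := congrFun h i
    rw [Pi.smul_apply, Pi.smul_apply, nsmul_eq_mul, nsmul_eq_mul] at h1
    have h2 : (e : ℤ) ≠ 0 := by exact_mod_cast he.ne'
    exact mul_left_cancel₀ h2 h1
  by_cases h : ∃ m₀, c = e • m₀
  · obtain ⟨m₀, rfl⟩ := h
    refine ⟨{m₀}, ?_, ?_, ?_⟩
    · intro m hm
      rw [Finset.mem_singleton] at hm
      rw [hm, sub_self]
      exact T.zero_mem
    · intro m hm
      refine ⟨m₀, Finset.mem_singleton_self _, hs _ e he ?_⟩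
      rw [smul_sub]
      exact hm
    · intro m₁ hm₁ m hm
      rw [Finset.mem_singleton] at hm
      rw [hm]
      exact hinj _ _ hm₁
  · obtain ⟨G, h1, h2⟩ := Pool.Agent.TG.rowE2b T hT (fun N m hN hm => hs m N hN hm) e he c
    exact ⟨G, h1, h2, fun m₀ hm₀ => absurd ⟨m₀, hm₀⟩ h⟩

end Gen

end Pool.Agent.TGh53
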